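import Pool.Agent.Helper49.SW.Line
import Pool.Agent.Helper63.HM.Cone

/-!
# Rank four data from an injective map of the users to planes
-/

set_option autoImplicit false
set_option linter.unusedSectionVars false

namespace Pool.Agent.Helper49.SW

open Finset
open Pool.Agent.Helper28.BPack Pool.Agent.Helper61.Motz Pool.Agent.Helper38.Thick
  Pool.Agent.Helper63.HM

variable {L : Type} [Lattice L] [BoundedOrder L] [Finite L] [IsUpperModularLattice L]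
variable [DecidableEq L] [DecidableRel (α := L) (· ≤ ·)]

/-- The lines of `H` through `z`. -/
def linesAt (A : Finset L) (z H : L) : Finset L :=
  (A.filter (fun y => y ≤ H ∧ y ≠ z)).image (fun y => z ⊔ y)

theorem mem_linesAt {A : Finset L} {z H g : L} :
    g ∈ linesAt A z H ↔ ∃ y ∈ A, y ≤ H ∧ y ≠ z ∧ z ⊔ y = g := by
  simp only [linesAt, mem_image, mem_filter]
  constructor
  · rintro ⟨y, ⟨h1, h2, h3⟩, h4⟩
    exact ⟨y, h1, h2, h3, h4⟩
  · rintro ⟨y, h1, h2, h3, h4⟩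
    exact ⟨y, ⟨h1, h2, h3⟩, h4⟩

omit [DecidableRel (α := L) (· ≤ ·)] in
theorem swp_eq (h : L → L) (z z' x : L) : swp h z z' x = h (Equiv.swap z z' x) := by
  unfold swp
  rw [Equiv.swap_apply_def]
  by_cases h1 : x = z
  · rw [if_pos h1, if_pos h1]
  · rw [if_neg h1, if_neg h1]
    by_cases h2 : x = z'
    · rw [if_pos h2, if_pos h2]
    · rw [if_neg h2, if_neg h2]

/-- A cheapest injective map. -/
theorem exists_state {U : Finset L} (hU : ∀ z ∈ U, IsAtom z) {P : L → Prop}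
    (hP : ∀ H, P H → rk H = 3)
    (hst : ∃ h : L → L, (∀ z ∈ U, P (h z) ∧ z ≤ h z) ∧
      ∀ z ∈ U, ∀ z' ∈ U, h z = h z' → z = z') :
    ∃ h : L → L, (∀ z ∈ U, P (h z)) ∧ St U h := by
  classical
  set ok : (L → L) → Prop := fun h => (∀ z ∈ U, P (h z) ∧ z ≤ h z) ∧
      ∀ z ∈ U, ∀ z' ∈ U, h z = h z' → z = z' with hok
  set q : (L → L) → ℕ := fun h => pot (fun x H : L => x ≤ H) U h with hq
  have hex : ∃ n, ∃ h, ok h ∧ q h = n := by
    obtain ⟨h, hh⟩ := hst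
    exact ⟨_, h, hh, rfl⟩
  obtain ⟨h, hh, hm⟩ := Nat.find_spec hex
  refine ⟨h, fun z hz => (hh.1 z hz).1, hU, fun z hz => hP _ (hh.1 z hz).1,
    fun z hz => (hh.1 z hz).2, hh.2, ?_⟩
  intro z hz z' hz' hne h1 h2
  have hmem : ∀ x ∈ U, Equiv.swap z z' x ∈ U := by
    intro x hx
    rw [Equiv.swap_apply_def]
    split_ifs
    · exact hz'
    · exact hz
    · exact hx
  have h3 : ok (swp h z z') := by
    refine ⟨?_, ?_⟩
    · intro x hx
      rw [swp_eq]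
      refine ⟨(hh.1 _ (hmem x hx)).1, ?_⟩
      rw [Equiv.swap_apply_def]
      split_ifs with k1 k2
      · rw [k1]; exact h2
      · rw [k2]; exact h1
      · exact (hh.1 x hx).2
    · intro x hx y hy e
      rw [swp_eq, swp_eq] at e
      exact (Equiv.swap z z').injective (hh.2 _ (hmem x hx) _ (hmem y hy) e)
  have h4 := Nat.find_min' hex ⟨swp h z z', h3, rfl⟩
  rw [← hm] at h4
  exact h4

/-- **Rank four from an injective map of the users to planes.** -/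
theorem crit4_of_matching {A : Finset L} (hA : ∀ a ∈ A, IsAtom a) {Q o : L} (hQ : rk Q = 3)
    (hB : Crit3 (A.filter (· ≤ Q))) (ho : o ∈ A) (hoQ : ¬ o ≤ Q) {P : L → Prop}
    (hP : ∀ H, P H → rk H = 3)
    (hPo : ∀ H, P H → o ≤ H → ∀ a ∈ A, ∀ b ∈ A, a ≤ Q → b ≤ Q → a ≤ H → b ≤ H → a = b)
    {w T : ℕ} (hw : 5 ≤ w)
    (hfat : ∀ z ∈ A, ¬ z ≤ Q → z ≠ o → ∀ H, P H → z ≤ H →
      w ≤ ((linesAt A z H).filter (fun g => ¬ o ≤ g)).card)
    (hT : ∀ z ∈ A, ¬ z ≤ Q → z ≠ o → ∀ H, P H → z ≤ H → ∀ g ∈ linesAt A z H,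
      (A.filter (fun x => (¬ x ≤ Q ∧ x ≠ o) ∧ ¬ x ≤ g ∧ x ≤ H)).card ≤ T)
    (h4 : 4 * T ≤ (w - 1) * (w - 2) ^ 2)
    (hst : ∃ h : L → L, (∀ z ∈ A, ¬ z ≤ Q → z ≠ o → P (h z) ∧ z ≤ h z) ∧
      ∀ z ∈ A, ¬ z ≤ Q → z ≠ o → ∀ z' ∈ A, ¬ z' ≤ Q → z' ≠ o → h z = h z' → z = z') :
    Crit4 A := by
  classical
  set U : Finset L := A.filter (fun x => ¬ x ≤ Q ∧ x ≠ o) with hUd
  have mU : ∀ x, x ∈ U ↔ x ∈ A ∧ ¬ x ≤ Q ∧ x ≠ o := fun x => mem_filter
  have mP : ∀ x, x ∈ A.filter (· ≤ Q) ↔ x ∈ A ∧ x ≤ Q := fun x => mem_filter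
  obtain ⟨h, hPh, S⟩ := exists_state (U := U) (fun z hz => hA z ((mU z).mp hz).1) hP (by
    obtain ⟨h, h1, h2⟩ := hst
    refine ⟨h, fun z hz => ?_, fun z hz z' hz' => ?_⟩
    · obtain ⟨k1, k2, k3⟩ := (mU z).mp hz
      exact h1 z k1 k2 k3
    · obtain ⟨k1, k2, k3⟩ := (mU z).mp hz
      obtain ⟨l1, l2, l3⟩ := (mU z').mp hz'
      exact h2 z k1 k2 k3 z' l1 l2 l3)
  -- `w` lines for every user
  have hNex : ∀ z, ∃ N : Finset L, z ∈ U →
      N ⊆ (linesAt A z (h z)).filter (fun g => ¬ o ≤ g) ∧ N.card = w := by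
    intro z
    by_cases hz : z ∈ U
    · obtain ⟨k1, k2, k3⟩ := (mU z).mp hz
      obtain ⟨N, hN1, hN2⟩ := exists_subset_card_eq (hfat z k1 k2 k3 (h z) (hPh z hz) (S.le z hz))
      exact ⟨N, fun _ => ⟨hN1, hN2⟩⟩
    · exact ⟨∅, fun hz' => (hz hz').elim⟩
  choose N hN using hNex
  have hNg : ∀ z ∈ U, ∀ g ∈ N z, rk g = 2 ∧ z ≤ g ∧ g ≤ h z ∧ ¬ o ≤ g ∧ g ∈ linesAt A z (h z) := by
    intro z hz g hg
    obtain ⟨k1, k2⟩ := mem_filter.mp ((hN z hz).1 hg)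
    obtain ⟨y, hy, hyH, hyz, rfl⟩ := mem_linesAt.mp k1
    exact ⟨rk_line (hA z ((mU z).mp hz).1) (hA y hy) hyz.symm, le_sup_left,
      sup_le (S.le z hz) hyH, k2, k1⟩
  obtain ⟨f, f', hf, hff, hff', hne⟩ := S.lines hw (fun z hz => (hN z hz).2)
    (fun z hz g hg => ⟨(hNg z hz g hg).1, (hNg z hz g hg).2.1, (hNg z hz g hg).2.2.1⟩)
    (fun z hz g hg => by
      obtain ⟨k1, k2, k3⟩ := (mU z).mp hz
      refine le_trans (le_of_eq ?_) (hT z k1 k2 k3 (h z) (hPh z hz) (S.le z hz) g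
        (hNg z hz g hg).2.2.2.2)
      rw [hUd, filter_filter]) h4
  -- second points
  have hpt : ∀ g : L → L, (∀ z ∈ U, g z ∈ N z) → ∀ z, ∃ y, z ∈ U →
      y ∈ A ∧ y ≤ h z ∧ y ≠ z ∧ z ⊔ y = g z := by
    intro g hg z
    by_cases hz : z ∈ U
    · obtain ⟨y, k⟩ := mem_linesAt.mp (hNg z hz _ (hg z hz)).2.2.2.2
      exact ⟨y, fun _ => k⟩
    · exact ⟨z, fun hz' => (hz hz').elim⟩
  choose c hc using hpt f (fun z hz => (hf z hz).1)
  choose d hd using hpt f' (fun z hz => (hf z hz).2)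
  have hxU : ∀ x ∈ A, x ∉ insert o (A.filter (· ≤ Q)) → x ∈ U := by
    intro x hx hxB
    rw [mem_insert, mP] at hxB
    push Not at hxB
    exact (mU x).mpr ⟨hx, hxB.2 hx, hxB.1⟩
  have hpl : ∀ z ∈ U, z ⊔ c z ⊔ d z = h z ∧ rk (z ⊔ c z ⊔ d z) = 3 := by
    intro z hz
    obtain ⟨c1, c2, c3, c4⟩ := hc z hz
    obtain ⟨d1, d2, d3, d4⟩ := hd z hz
    have hzA := ((mU z).mp hz).1
    have k1 : ¬ d z ≤ z ⊔ c z := by
      intro k
      have k2 : z ⊔ d z = z ⊔ c z := line_of (hA z hzA) (hA _ d1) d3.symm le_sup_left k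
        (rk_line (hA z hzA) (hA _ c1) c3.symm)
      exact hne z hz z hz (by rw [← c4, ← d4, k2])
    have k2 : rk (z ⊔ c z ⊔ d z) = 3 := by
      rw [rk_sup_atom (hA _ d1) k1, rk_line (hA z hzA) (hA _ c1) c3.symm]
    exact ⟨eq_of_le_of_rk (sup_le (sup_le (S.le z hz) c2) d2) (by rw [k2, S.rk3 z hz]), k2⟩
  have hBm : ∀ a, a ∈ insert o (A.filter (· ≤ Q)) → a = o ∨ (a ∈ A ∧ a ≤ Q) := by
    intro a ha
    rcases mem_insert.mp ha with k | k
    · exact Or.inl k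
    · exact Or.inr ((mP a).mp k)
  have hline : ∀ z ∈ U, ∀ g ∈ N z, ∀ a ∈ insert o (A.filter (· ≤ Q)),
      ∀ e ∈ insert o (A.filter (· ≤ Q)), a ≠ e → a ≤ g → e ≤ g → False := by
    intro z hz g hg a ha e he hae hag heg
    obtain ⟨k1, k2, -, k4, -⟩ := hNg z hz g hg
    rcases hBm a ha with rfl | ⟨ha1, ha2⟩
    · exact k4 hag
    rcases hBm e he with rfl | ⟨he1, he2⟩
    · exact k4 heg
    have k5 := line_eq (hA a ha1) (hA e he1) hae hag heg k1
    exact ((mU z).mp hz).2.1 (k2.trans (k5 ▸ sup_le ha2 he2))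
  refine nPeel (B := insert o (A.filter (· ≤ Q))) (c' := c) (d' := d) hA ?_
    (crit4_base hA hQ ho hoQ hB) ?_ ?_ ?_ ?_ ?_ ?_ ?_ ?_
  · intro a ha
    rcases hBm a ha with rfl | k
    · exact ho
    · exact k.1
  · intro x hx hxB
    have hz := hxU x hx hxB
    exact ⟨(hc x hz).1, (hd x hz).1, (hpl x hz).2⟩
  · intro x hx hxB y hy hyB e
    have h1 := hxU x hx hxB
    have h2 := hxU y hy hyB
    rw [(hc x h1).2.2.2, (hc y h2).2.2.2] at e
    exact hff x h1 y h2 e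
  · intro x hx hxB y hy hyB e
    have h1 := hxU x hx hxB
    have h2 := hxU y hy hyB
    rw [(hd x h1).2.2.2, (hd y h2).2.2.2] at e
    exact hff' x h1 y h2 e
  · intro x hx hxB y hy hyB e
    have h1 := hxU x hx hxB
    have h2 := hxU y hy hyB
    rw [(hc x h1).2.2.2, (hd y h2).2.2.2] at e
    exact hne x h1 y h2 e
  · intro x hx hxB y hy hyB e
    have h1 := hxU x hx hxB
    have h2 := hxU y hy hyB
    rw [(hpl x h1).1, (hpl y h2).1] at e
    exact S.inj x h1 y h2 e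
  · intro x hx hxB a ha e he hae k1 k2
    have h1 := hxU x hx hxB
    rw [(hc x h1).2.2.2] at k1 k2
    exact hline x h1 _ (hf x h1).1 a ha e he hae k1 k2
  · intro x hx hxB a ha e he hae k1 k2
    have h1 := hxU x hx hxB
    rw [(hd x h1).2.2.2] at k1 k2
    exact hline x h1 _ (hf x h1).2 a ha e he hae k1 k2
  · intro x hx hxB a ha e he t ht hr k1 k2 k3
    have h1 := hxU x hx hxB
    rw [(hpl x h1).1] at k1 k2 k3
    have hat : ∀ b, b ∈ insert o (A.filter (· ≤ Q)) → IsAtom b := by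
      intro b hb
      rcases hBm b hb with rfl | k
      · exact hA _ ho
      · exact hA _ k.1
    obtain ⟨n1, n2, n3⟩ := ne_of_rk3 (hat a ha) (hat e he) (hat t ht) hr
    by_cases hoh : o ≤ h x
    · have h5 := hPo (h x) (hPh x h1) hoh
      rcases hBm a ha with ka | ⟨ka, ka'⟩
      · rcases hBm e he with ke | ⟨ke, ke'⟩
        · exact n1 (ka.trans ke.symm)
        · rcases hBm t ht with kt | ⟨kt, kt'⟩
          · exact n2 (ka.trans kt.symm)
          · exact n3 (h5 e ke t kt ke' kt' k2 k3)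
      · rcases hBm e he with ke | ⟨ke, ke'⟩
        · rcases hBm t ht with kt | ⟨kt, kt'⟩
          · exact n3 (ke.trans kt.symm)
          · exact n2 (h5 a ka t kt ka' kt' k1 k3)
        · exact n1 (h5 a ka e ke ka' ke' k1 k2)
    · rcases hBm a ha with ka | ⟨ka, ka'⟩
      · exact hoh (ka ▸ k1)
      rcases hBm e he with ke | ⟨ke, ke'⟩
      · exact hoh (ke ▸ k2)
      rcases hBm t ht with kt | ⟨kt, kt'⟩
      · exact hoh (kt ▸ k3)
      have h5 : a ⊔ e ⊔ t = h x := eq_of_le_of_rk (sup_le (sup_le k1 k2) k3)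
        (by rw [hr, S.rk3 x h1])
      exact ((mU x).mp h1).2.1 ((S.le x h1).trans (h5 ▸ sup_le (sup_le ka' ke') kt'))

end Pool.Agent.Helper49.SW
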