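import Mathlib

/-!
# A Hall condition with demand two from a weighted count

`N z` is a set of `w` lines for each user `z`, `n l` the number of users of `S` with `l ∈ N z`.
If on every line `g` the loads of the users of `g` off `g` are small in the mean, then the users
of `S` have at least `2 * |S|` lines.
-/

set_option autoImplicit false

namespace Pool.Agent.Helper49.SW

open Finset

/-- The real inequality for one user. -/
theorem user_ineq {w h M : ℝ} (hw : 5 ≤ w) (hw' : h ≤ w)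
    (hM0 : 0 ≤ (w - h - 1) * M + (w - h))
    (hM : w ^ 2 - w ^ 2 / 4 * h - w ≤ M) :
    (w - 1) * (w ^ 2 - w ^ 2 / 4 * h - 2 * w + h) ≤ (w - h - 1) * M + (w - h) := by
  rcases le_or_gt h (w - 1) with h1 | h1
  · have h2 : 0 ≤ w - h - 1 := by linarith
    have h3 : (w - h - 1) * (w ^ 2 - w ^ 2 / 4 * h - w) ≤ (w - h - 1) * M :=
      mul_le_mul_of_nonneg_left hM h2
    have h4 : 0 ≤ (w * (1 - h / 2)) ^ 2 := sq_nonneg _
    nlinarith
  · have h2 : w ^ 2 - w ^ 2 / 4 * h ≤ 0 := by nlinarith [sq_nonneg w]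
    have h3 : w ^ 2 - w ^ 2 / 4 * h - 2 * w + h ≤ 0 := by linarith
    have h4 : (w - 1) * (w ^ 2 - w ^ 2 / 4 * h - 2 * w + h) ≤ 0 :=
      mul_nonpos_of_nonneg_of_nonpos (by linarith) h3
    linarith

/-- **The count.** -/
theorem count2 {ι γ : Type*} [DecidableEq ι] [DecidableEq γ] (S : Finset ι) (N : ι → Finset γ)
    {w T : ℕ} (hw : 5 ≤ w) (hN : ∀ z ∈ S, (N z).card = w)
    (hT : ∀ g, (((S.filter (fun z => g ∈ N z)).card : ℝ) - 1) *
      ∑ z ∈ S.filter (fun z => g ∈ N z),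
        ((∑ l ∈ N z, (((S.filter (fun x => l ∈ N x)).card : ℝ) - 1)) -
          (((S.filter (fun x => g ∈ N x)).card : ℝ) - 1)) ≤
      ((S.filter (fun z => g ∈ N z)).card : ℝ) * T)
    (h4 : 4 * T ≤ (w - 1) * (w - 2) ^ 2) : 2 * S.card ≤ (S.biUnion N).card := by
  classical
  set n : γ → ℝ := fun g => ((S.filter (fun x => g ∈ N x)).card : ℝ) with hn
  set M : ι → ℝ := fun z => ∑ l ∈ N z, (n l - 1) with hMd
  set h : ι → ℝ := fun z => ∑ l ∈ N z, 1 / n l with hhd
  set E := S.biUnion N with hE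
  have hn1 : ∀ z ∈ S, ∀ g ∈ N z, 1 ≤ n g := by
    intro z hz g hg
    have h1 : 0 < (S.filter (fun x => g ∈ N x)).card :=
      card_pos.mpr ⟨z, mem_filter.mpr ⟨hz, hg⟩⟩
    have h2 : 1 ≤ (S.filter (fun x => g ∈ N x)).card := h1
    simp only [hn]
    exact_mod_cast h2
  have hnE : ∀ g ∈ E, 1 ≤ n g := by
    intro g hg
    obtain ⟨z, hz, hgz⟩ := mem_biUnion.mp hg
    exact hn1 z hz g hgz
  -- exchange of sums
  have hex : ∀ F : ι → γ → ℝ, ∑ z ∈ S, ∑ g ∈ N z, F z g =
      ∑ g ∈ E, ∑ z ∈ S.filter (fun z => g ∈ N z), F z g := by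
    intro F
    refine sum_comm' ?_
    intro z g
    rw [mem_filter, hE, mem_biUnion]
    exact ⟨fun hh => ⟨hh, z, hh⟩, fun hh => hh.1⟩
  -- the sum of `h`
  have hsum : ∑ z ∈ S, h z = (E.card : ℝ) := by
    simp only [hhd]
    rw [hex (fun _ g => 1 / n g)]
    rw [card_eq_sum_ones, Nat.cast_sum]
    refine sum_congr rfl fun g hg => ?_
    have h1 := hnE g hg
    rw [sum_const, nsmul_eq_mul]
    have h2 : (((S.filter (fun z => g ∈ N z)).card : ℕ) : ℝ) = n g := rfl
    rw [h2, mul_one_div, div_self (by linarith)]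
    simp
  -- the right side
  have hright : ∑ z ∈ S, ∑ g ∈ N z, (1 - 1 / n g) * (M z - (n g - 1)) ≤ (E.card : ℝ) * T := by
    rw [hex (fun z g => (1 - 1 / n g) * (M z - (n g - 1)))]
    have h1 : (E.card : ℝ) * T = ∑ _g ∈ E, (T : ℝ) := by rw [sum_const, nsmul_eq_mul]
    rw [h1]
    refine sum_le_sum fun g hg => ?_
    have h2 := hnE g hg
    have h3 := hT g
    have h5 : ∑ z ∈ S.filter (fun z => g ∈ N z), (1 - 1 / n g) * (M z - (n g - 1)) =
        (1 - 1 / n g) * ∑ z ∈ S.filter (fun z => g ∈ N z), (M z - (n g - 1)) := by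
      rw [mul_sum]
    rw [h5]
    have h6 : (n g - 1) * ∑ z ∈ S.filter (fun z => g ∈ N z), (M z - (n g - 1)) ≤ n g * T := h3
    have h7 : (1 - 1 / n g) = (n g - 1) / n g := by
      field_simp
    rw [h7, div_mul_eq_mul_div, div_le_iff₀ (by linarith)]
    linarith
  -- the left side
  have hleft : ∀ z ∈ S, ((w : ℝ) - 1) * ((w : ℝ) ^ 2 - (w : ℝ) ^ 2 / 4 * h z - 2 * w + h z) ≤
      ∑ g ∈ N z, (1 - 1 / n g) * (M z - (n g - 1)) := by
    intro z hz
    have hc : ((N z).card : ℝ) = w := by exact_mod_cast hN z hz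
    have e1 : ∑ g ∈ N z, (1 - 1 / n g) * (M z - (n g - 1)) =
        ((w : ℝ) - h z - 1) * M z + (w - h z) := by
      have h1 : ∀ g ∈ N z, (1 - 1 / n g) * (M z - (n g - 1)) =
          M z - M z * (1 / n g) - (n g - 1) + 1 - 1 / n g := by
        intro g hg
        have h2 := hn1 z hz g hg
        have h3 : 1 / n g * n g = 1 := by
          rw [one_div_mul_cancel (by linarith)]
        linear_combination h3
      rw [sum_congr rfl h1, sum_sub_distrib, sum_add_distrib, sum_sub_distrib, sum_sub_distrib,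
        sum_const, sum_const, nsmul_eq_mul, nsmul_eq_mul, ← mul_sum, hc]
      have h2 : ∑ g ∈ N z, (n g - 1) = M z := rfl
      have h3 : ∑ g ∈ N z, 1 / n g = h z := rfl
      rw [h2, h3]
      ring
    have e2 : 0 ≤ ∑ g ∈ N z, (1 - 1 / n g) * (M z - (n g - 1)) := by
      refine sum_nonneg fun g hg => ?_
      have h2 := hn1 z hz g hg
      have h3 : 0 ≤ 1 - 1 / n g := by
        have : 1 / n g ≤ 1 := by
          rw [div_le_one (by linarith)]
          exact h2
        linarith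
      have h5 : n g - 1 ≤ M z :=
        single_le_sum (f := fun l => n l - 1) (fun l hl => by
          have := hn1 z hz l hl
          linarith) hg
      exact mul_nonneg h3 (by linarith)
    have e3 : h z ≤ w := by
      have h1 : h z ≤ ∑ _g ∈ N z, (1 : ℝ) := by
        refine sum_le_sum fun g hg => ?_
        have h2 := hn1 z hz g hg
        rw [div_le_one (by linarith)]
        exact h2
      rw [sum_const, nsmul_eq_mul, mul_one, hc] at h1
      exact h1
    have e4 : (w : ℝ) ^ 2 - (w : ℝ) ^ 2 / 4 * h z - w ≤ M z := by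
      have h1 : ∑ g ∈ N z, ((w : ℝ) - (w : ℝ) ^ 2 / 4 * (1 / n g) - 1) ≤ M z := by
        refine sum_le_sum fun g hg => ?_
        have h2 := hn1 z hz g hg
        have h3 : 0 < n g := by linarith
        have h5 : 0 ≤ (n g - w / 2) ^ 2 / n g := by positivity
        have h6 : (n g - w / 2) ^ 2 / n g = n g - w + (w : ℝ) ^ 2 / 4 * (1 / n g) := by
          field_simp
          ring
        linarith
      rw [sum_sub_distrib, sum_sub_distrib, sum_const, sum_const, nsmul_eq_mul, nsmul_eq_mul,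
        ← mul_sum, hc] at h1
      have h3 : ∑ g ∈ N z, 1 / n g = h z := rfl
      rw [h3] at h1
      linarith
    have h5 : (5 : ℝ) ≤ w := by exact_mod_cast hw
    rw [e1]
    exact user_ineq h5 e3 (e1 ▸ e2) e4
  -- the end
  have hfin : ((w : ℝ) - 1) * ((S.card : ℝ) * ((w : ℝ) ^ 2 - 2 * w) -
      (E.card : ℝ) * ((w : ℝ) ^ 2 / 4 - 1)) ≤ (E.card : ℝ) * T := by
    refine le_trans (le_of_eq ?_) ((sum_le_sum hleft).trans hright)
    rw [← mul_sum, sum_add_distrib, sum_sub_distrib, sum_sub_distrib, sum_const, sum_const,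
      nsmul_eq_mul, nsmul_eq_mul, ← mul_sum, hsum]
    ring
  have hw5 : (5 : ℝ) ≤ w := by exact_mod_cast hw
  have hT4 : 4 * (T : ℝ) ≤ ((w : ℝ) - 1) * ((w : ℝ) - 2) ^ 2 := by
    have h1 : ((4 * T : ℕ) : ℝ) ≤ (((w - 1) * (w - 2) ^ 2 : ℕ) : ℝ) := by exact_mod_cast h4
    rw [Nat.cast_mul, Nat.cast_mul, Nat.cast_pow, Nat.cast_sub (by omega),
      Nat.cast_sub (by omega)] at h1
    push_cast at h1
    exact h1
  have hE0 : (0 : ℝ) ≤ E.card := by positivity
  have h1 : (E.card : ℝ) * T ≤ (E.card : ℝ) * (((w : ℝ) - 1) * ((w : ℝ) - 2) ^ 2 / 4) :=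
    mul_le_mul_of_nonneg_left (by linarith) hE0
  have h2 : 0 ≤ ((w : ℝ) - 1) * ((w : ℝ) - 2) * w *
      ((E.card : ℝ) / 2 - S.card) := by
    have h3 := hfin.trans h1
    nlinarith
  have h3 : 0 < ((w : ℝ) - 1) * ((w : ℝ) - 2) * w := by
    have : 0 < (w : ℝ) - 1 := by linarith
    have : 0 < (w : ℝ) - 2 := by linarith
    have : 0 < (w : ℝ) := by linarith
    positivity
  have h5 : 0 ≤ (E.card : ℝ) / 2 - S.card := by
    by_contra hcon
    push Not at hcon
    have := mul_neg_of_pos_of_neg h3 hcon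
    linarith
  have h6 : 2 * (S.card : ℝ) ≤ E.card := by linarith
  exact_mod_cast h6

end Pool.Agent.Helper49.SW
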