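import Mathlib

/-!
# Swapping the planes of two mutual users

`R z H` : the user `z` is on the plane `H`.  `h` : the planes of the users.  Two users are mutual
if each is on the plane of the other one.
-/

set_option autoImplicit false

namespace Pool.Agent.Helper49.SW

open Finset

variable {α β : Type*} [DecidableEq α] (R : α → β → Prop) [∀ a b, Decidable (R a b)]

/-- The number of ordered mutual pairs. -/
def pot (U : Finset α) (h : α → β) : ℕ :=
  ∑ z ∈ U, ∑ w ∈ U, if R w (h z) ∧ R z (h w) then 1 else 0

/-- The planes after the exchange. -/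
def swp (h : α → β) (z z' : α) : α → β := fun x => if x = z then h z' else if x = z' then h z
  else h x

theorem swp_left (h : α → β) (z z' : α) : swp h z z' z = h z' := by simp [swp]

theorem swp_right {h : α → β} {z z' : α} (hne : z ≠ z') : swp h z z' z' = h z := by
  simp [swp, hne.symm]

theorem swp_other {h : α → β} {z z' x : α} (h1 : x ≠ z) (h2 : x ≠ z') :
    swp h z z' x = h x := by
  simp [swp, h1, h2]

/-- The potential with two users split off. -/
theorem pot_split {U : Finset α} {h : α → β} {z z' : α} (hz : z ∈ U) (hz' : z' ∈ U)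
    (hne : z ≠ z') : pot R U h =
      (∑ x ∈ (U.erase z).erase z', ∑ w ∈ (U.erase z).erase z',
        if R w (h x) ∧ R x (h w) then 1 else 0) +
      2 * (∑ w ∈ (U.erase z).erase z', if R w (h z) ∧ R z (h w) then 1 else 0) +
      2 * (∑ w ∈ (U.erase z).erase z', if R w (h z') ∧ R z' (h w) then 1 else 0) +
      2 * (if R z' (h z) ∧ R z (h z') then 1 else 0) +
      (if R z (h z) ∧ R z (h z) then 1 else 0) + (if R z' (h z') ∧ R z' (h z') then 1 else 0) := by
  have hz2 : z' ∈ U.erase z := mem_erase.mpr ⟨hne.symm, hz'⟩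
  have hs : ∀ f : α → ℕ, ∑ x ∈ U, f x = f z + (f z' + ∑ x ∈ (U.erase z).erase z', f x) := by
    intro f
    rw [add_sum_erase _ _ hz2, add_sum_erase _ _ hz]
  unfold pot
  rw [hs]
  simp only [hs]
  rw [sum_add_distrib, sum_add_distrib]
  have e1 : ∑ x ∈ (U.erase z).erase z', (if R z (h x) ∧ R x (h z) then 1 else 0) =
      ∑ w ∈ (U.erase z).erase z', if R w (h z) ∧ R z (h w) then 1 else 0 :=
    sum_congr rfl fun x _ => by simp only [and_comm]
  have e2 : ∑ x ∈ (U.erase z).erase z', (if R z' (h x) ∧ R x (h z') then 1 else 0) =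
      ∑ w ∈ (U.erase z).erase z', if R w (h z') ∧ R z' (h w) then 1 else 0 :=
    sum_congr rfl fun x _ => by simp only [and_comm]
  have e3 : (if R z (h z') ∧ R z' (h z) then 1 else 0 : ℕ) =
      if R z' (h z) ∧ R z (h z') then 1 else 0 := by simp only [and_comm]
  rw [e1, e2, e3]
  ring

/-- **The exchange.**  If the exchange of the planes of the mutual users `z`, `z'` does not
lower the potential, then they have at most as many other partners as after the exchange. -/
theorem swap_le {U : Finset α} {h : α → β} {z z' : α} (hz : z ∈ U) (hz' : z' ∈ U)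
    (hne : z ≠ z') (h1 : R z (h z)) (h2 : R z' (h z')) (h3 : R z' (h z)) (h4 : R z (h z'))
    (hmin : pot R U h ≤ pot R U (swp h z z')) :
    (∑ w ∈ (U.erase z).erase z', if R w (h z) ∧ R z (h w) then 1 else 0) +
      (∑ w ∈ (U.erase z).erase z', if R w (h z') ∧ R z' (h w) then 1 else 0) ≤
    (∑ w ∈ (U.erase z).erase z', if R w (h z') ∧ R z (h w) then 1 else 0) +
      (∑ w ∈ (U.erase z).erase z', if R w (h z) ∧ R z' (h w) then 1 else 0) := by
  rw [pot_split R hz hz' hne, pot_split R hz hz' hne] at hmin
  have hU : ∀ x ∈ (U.erase z).erase z', swp h z z' x = h x := fun x hx =>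
    swp_other (mem_erase.mp (mem_erase.mp hx).2).1 (mem_erase.mp hx).1
  have e1 : (∑ x ∈ (U.erase z).erase z', ∑ w ∈ (U.erase z).erase z',
        if R w (swp h z z' x) ∧ R x (swp h z z' w) then 1 else 0) =
      ∑ x ∈ (U.erase z).erase z', ∑ w ∈ (U.erase z).erase z',
        if R w (h x) ∧ R x (h w) then 1 else 0 :=
    sum_congr rfl fun x hx => sum_congr rfl fun w hw => by rw [hU x hx, hU w hw]
  have e2 : (∑ w ∈ (U.erase z).erase z',
        if R w (swp h z z' z) ∧ R z (swp h z z' w) then 1 else 0) =
      ∑ w ∈ (U.erase z).erase z', if R w (h z') ∧ R z (h w) then 1 else 0 :=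
    sum_congr rfl fun w hw => by rw [hU w hw, swp_left]
  have e3 : (∑ w ∈ (U.erase z).erase z',
        if R w (swp h z z' z') ∧ R z' (swp h z z' w) then 1 else 0) =
      ∑ w ∈ (U.erase z).erase z', if R w (h z) ∧ R z' (h w) then 1 else 0 :=
    sum_congr rfl fun w hw => by rw [hU w hw, swp_right hne]
  rw [e1, e2, e3, swp_left, swp_right hne] at hmin
  simp only [h1, h2, h3, h4, and_self, if_true] at hmin
  omega

end Pool.Agent.Helper49.SW
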