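import Pool.Agent.Helper49.SW.Count
import Pool.Agent.Helper49.SW.Swap
import Pool.Agent.Helper38.Thick.Frame

/-!
# Two lines for every user from a cheapest matching of users and planes
-/

set_option autoImplicit false
set_option linter.unusedSectionVars false

namespace Pool.Agent.Helper49.SW

open Finset
open Pool.Agent.Helper28.BPack Pool.Agent.Helper61.Motz Pool.Agent.Helper38.Thick

variable {L : Type} [Lattice L] [BoundedOrder L] [Finite L] [IsUpperModularLattice L]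
variable [DecidableEq L] [DecidableRel (α := L) (· ≤ ·)]

/-- Two conditions which agree on `g`. -/
theorem split_card {U : Finset L} {z z' g : L} (hz : z ≤ g) (hz' : z' ≤ g) (p q : L → Prop)
    [DecidablePred p] [DecidablePred q] (hpq : ∀ w, w ≤ g → (p w ↔ q w)) :
    ∃ c : ℕ, (∑ w ∈ (U.erase z).erase z', if p w then 1 else 0) =
        c + (U.filter (fun w => ¬ w ≤ g ∧ p w)).card ∧
      (∑ w ∈ (U.erase z).erase z', if q w then 1 else 0) =
        c + (U.filter (fun w => ¬ w ≤ g ∧ q w)).card := by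
  have key : ∀ (r : L → Prop) [DecidablePred r],
      (∑ w ∈ (U.erase z).erase z', if r w then 1 else 0) =
        (∑ w ∈ ((U.erase z).erase z').filter (· ≤ g), if r w then 1 else 0) +
        (U.filter (fun w => ¬ w ≤ g ∧ r w)).card := by
    intro r _
    rw [← sum_filter_add_sum_filter_not ((U.erase z).erase z') (· ≤ g)]
    congr 1
    rw [← card_filter, filter_filter]
    congr 1
    ext w
    simp only [mem_filter, mem_erase]
    constructor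
    · rintro ⟨⟨-, -, h1⟩, h2⟩
      exact ⟨h1, h2⟩
    · rintro ⟨h1, h2⟩
      exact ⟨⟨fun e => h2.1 (e ▸ hz'), fun e => h2.1 (e ▸ hz), h1⟩, h2⟩
  refine ⟨_, key p, ?_⟩
  rw [key q]
  congr 1
  refine sum_congr rfl fun w hw => ?_
  rw [mem_filter] at hw
  simp only [hpq w hw.2]

/-- A state: users, their planes. -/
structure St (U : Finset L) (h : L → L) : Prop where
  at_ : ∀ z ∈ U, IsAtom z
  rk3 : ∀ z ∈ U, rk (h z) = 3
  le : ∀ z ∈ U, z ≤ h z
  inj : ∀ z ∈ U, ∀ z' ∈ U, h z = h z' → z = z'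
  min : ∀ z ∈ U, ∀ z' ∈ U, z ≠ z' → z' ≤ h z → z ≤ h z' →
    pot (fun x H : L => x ≤ H) U h ≤ pot (fun x H : L => x ≤ H) U (swp h z z')

/-- The exchange on the line `g`. -/
theorem St.swap {U : Finset L} {h : L → L} (S : St U h) {g z z' : L} (hz : z ∈ U) (hz' : z' ∈ U)
    (hne : z ≠ z') (hzg : z ≤ g) (hzg' : z' ≤ g) (hgz : g ≤ h z) (hgz' : g ≤ h z') :
    (U.filter (fun w => ¬ w ≤ g ∧ w ≤ h z ∧ z ≤ h w)).card +
      (U.filter (fun w => ¬ w ≤ g ∧ w ≤ h z' ∧ z' ≤ h w)).card ≤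
    (U.filter (fun w => ¬ w ≤ g ∧ w ≤ h z' ∧ z ≤ h w)).card +
      (U.filter (fun w => ¬ w ≤ g ∧ w ≤ h z ∧ z' ≤ h w)).card := by
  have h0 := swap_le (fun x H : L => x ≤ H) hz hz' hne (S.le z hz) (S.le z' hz')
    (hzg'.trans hgz) (hzg.trans hgz')
    (S.min z hz z' hz' hne (hzg'.trans hgz) (hzg.trans hgz'))
  obtain ⟨c1, h1, h2⟩ := split_card (U := U) hzg hzg' (fun w => w ≤ h z ∧ z ≤ h w)
    (fun w => w ≤ h z' ∧ z ≤ h w)
    (fun w hw => ⟨fun k => ⟨hw.trans hgz', k.2⟩, fun k => ⟨hw.trans hgz, k.2⟩⟩)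
  obtain ⟨c2, h3, h4⟩ := split_card (U := U) hzg hzg' (fun w => w ≤ h z' ∧ z' ≤ h w)
    (fun w => w ≤ h z ∧ z' ≤ h w)
    (fun w hw => ⟨fun k => ⟨hw.trans hgz, k.2⟩, fun k => ⟨hw.trans hgz', k.2⟩⟩)
  rw [h1, h2, h3, h4] at h0
  omega

/-- **The receivers of a line.** -/
theorem St.recv {U : Finset L} {h : L → L} (S : St U h) {g : L} (hg : rk g = 2) {Z : Finset L}
    (hZU : Z ⊆ U) (hZg : ∀ z ∈ Z, z ≤ g ∧ g ≤ h z) {T : ℕ}
    (hT : ∀ z ∈ Z, (U.filter (fun w => ¬ w ≤ g ∧ w ≤ h z)).card ≤ T) :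
    (Z.card - 1) * ∑ z ∈ Z, (U.filter (fun w => ¬ w ≤ g ∧ w ≤ h z ∧ z ≤ h w)).card ≤
      Z.card * T := by
  set Lo : L → ℕ := fun z => (U.filter (fun w => ¬ w ≤ g ∧ w ≤ h z ∧ z ≤ h w)).card with hLo
  set Ro : L → L → ℕ := fun z z' => (U.filter (fun w => ¬ w ≤ g ∧ w ≤ h z' ∧ z ≤ h w)).card
    with hRo
  have hc : ∀ F : L → L → ℕ, ∑ z ∈ Z, ∑ z' ∈ Z.erase z, F z z' =
      ∑ z' ∈ Z, ∑ z ∈ Z.erase z', F z z' := by
    intro F
    refine sum_comm' ?_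
    intro x y
    rw [mem_erase, mem_erase]
    exact ⟨fun k => ⟨⟨k.2.1.symm, k.1⟩, k.2.2⟩, fun k => ⟨k.1.2, k.1.1.symm, k.2⟩⟩
  have h1 : ∑ z ∈ Z, ∑ z' ∈ Z.erase z, (Lo z + Lo z') ≤
      ∑ z ∈ Z, ∑ z' ∈ Z.erase z, (Ro z z' + Ro z' z) := by
    refine sum_le_sum fun z hz => sum_le_sum fun z' hz' => ?_
    obtain ⟨hne, hz'⟩ := mem_erase.mp hz'
    exact S.swap (hZU hz) (hZU hz') hne.symm (hZg z hz).1 (hZg z' hz').1 (hZg z hz).2
      (hZg z' hz').2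
  have h2 : ∑ z ∈ Z, ∑ z' ∈ Z.erase z, (Lo z + Lo z') = 2 * ((Z.card - 1) * ∑ z ∈ Z, Lo z) := by
    have e1 : ∑ z ∈ Z, ∑ _z' ∈ Z.erase z, Lo z = (Z.card - 1) * ∑ z ∈ Z, Lo z := by
      rw [mul_sum]
      refine sum_congr rfl fun z hz => ?_
      rw [sum_const, smul_eq_mul, card_erase_of_mem hz]
    have e2 : ∑ z ∈ Z, ∑ z' ∈ Z.erase z, Lo z' = (Z.card - 1) * ∑ z ∈ Z, Lo z := by
      rw [hc (fun _ z' => Lo z'), ← e1]
    simp only [sum_add_distrib]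
    rw [e1, e2]
    ring
  have h3 : ∑ z ∈ Z, ∑ z' ∈ Z.erase z, (Ro z z' + Ro z' z) =
      2 * ∑ z' ∈ Z, ∑ z ∈ Z.erase z', Ro z z' := by
    simp only [sum_add_distrib]
    rw [hc (fun z z' => Ro z z')]
    ring
  have h4 : ∀ z' ∈ Z, ∑ z ∈ Z.erase z', Ro z z' ≤ T := by
    intro z' hz'
    refine le_trans ?_ (hT z' hz')
    rw [← card_biUnion]
    · refine card_le_card fun w hw => ?_
      obtain ⟨z, -, hw⟩ := mem_biUnion.mp hw
      rw [mem_filter] at hw ⊢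
      exact ⟨hw.1, hw.2.1, hw.2.2.1⟩
    · intro z1 hz1 z2 hz2 h12
      rw [Function.onFun, disjoint_left]
      intro w hw1 hw2
      rw [mem_coe] at hz1 hz2
      rw [mem_filter] at hw1 hw2
      obtain ⟨hwU, hwg, hwz', hz1w⟩ := hw1
      obtain ⟨-, -, -, hz2w⟩ := hw2
      have k1 := hZg z1 (mem_of_mem_erase hz1)
      have k2 := hZg z2 (mem_of_mem_erase hz2)
      have a1 := S.at_ z1 (hZU (mem_of_mem_erase hz1))
      have a2 := S.at_ z2 (hZU (mem_of_mem_erase hz2))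
      have hgw : g ≤ h w := by
        rw [← line_of a1 a2 h12 k1.1 k2.1 hg]
        exact sup_le hz1w hz2w
      have hr : rk (g ⊔ w) = 3 := by rw [rk_sup_atom (S.at_ w hwU) hwg, hg]
      have e1 : g ⊔ w = h w := eq_of_le_of_rk (sup_le hgw (S.le w hwU))
        (by rw [hr, S.rk3 w hwU])
      have e2 : g ⊔ w = h z' := eq_of_le_of_rk (sup_le (hZg z' hz').2 hwz')
        (by rw [hr, S.rk3 z' (hZU hz')])
      have e3 := S.inj w hwU z' (hZU hz') (e1.symm.trans e2)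
      exact hwg (e3 ▸ (hZg z' hz').1)
  have h5 : ∑ z' ∈ Z, ∑ z ∈ Z.erase z', Ro z z' ≤ Z.card * T := by
    have := sum_le_sum h4
    rw [sum_const, smul_eq_mul] at this
    exact this
  rw [h2, h3] at h1
  have h6 := h1.trans (Nat.mul_le_mul_left 2 h5)
  change (Z.card - 1) * ∑ z ∈ Z, Lo z ≤ Z.card * T
  omega

/-- **Hall with demand two.** -/
theorem St.hall {U : Finset L} {h : L → L} (S : St U h) {N : L → Finset L} {w T : ℕ}
    (hw : 5 ≤ w) (hN : ∀ z ∈ U, (N z).card = w)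
    (hNg : ∀ z ∈ U, ∀ g ∈ N z, rk g = 2 ∧ z ≤ g ∧ g ≤ h z)
    (hT : ∀ z ∈ U, ∀ g ∈ N z, (U.filter (fun w => ¬ w ≤ g ∧ w ≤ h z)).card ≤ T)
    (h4 : 4 * T ≤ (w - 1) * (w - 2) ^ 2) {V : Finset L} (hV : V ⊆ U) :
    2 * V.card ≤ (V.biUnion N).card := by
  refine count2 V N hw (fun z hz => hN z (hV hz)) (fun g => ?_) h4
  set Z := V.filter (fun z => g ∈ N z) with hZ
  set n : L → ℝ := fun l => ((V.filter (fun x => l ∈ N x)).card : ℝ) with hn
  have hZm : ∀ z, z ∈ Z ↔ z ∈ V ∧ g ∈ N z := fun z => by rw [hZ, mem_filter]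
  rcases Z.eq_empty_or_nonempty with h0 | ⟨z0, hz0⟩
  · rw [h0]
    simp
  have hg : rk g = 2 := (hNg z0 (hV ((hZm z0).mp hz0).1) g ((hZm z0).mp hz0).2).1
  have hZU : Z ⊆ U := fun z hz => hV ((hZm z).mp hz).1
  have h1 := S.recv hg hZU (fun z hz => (hNg z (hZU hz) g ((hZm z).mp hz).2).2)
    (fun z hz => hT z (hZU hz) g ((hZm z).mp hz).2)
  have hZ1 : 1 ≤ Z.card := card_pos.mpr ⟨z0, hz0⟩
  -- the loads of one user
  have h2 : ∀ z ∈ Z, (∑ l ∈ N z, (n l - 1)) - (n g - 1) ≤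
      ((U.filter (fun w => ¬ w ≤ g ∧ w ≤ h z ∧ z ≤ h w)).card : ℝ) := by
    intro z hz
    obtain ⟨hzV, hgz⟩ := (hZm z).mp hz
    have hzU := hV hzV
    have e1 : (∑ l ∈ N z, (n l - 1)) - (n g - 1) = ∑ l ∈ (N z).erase g, (n l - 1) := by
      rw [← add_sum_erase _ _ hgz]
      ring
    rw [e1]
    have e2 : ∑ l ∈ (N z).erase g, (n l - 1) =
        ((∑ l ∈ (N z).erase g, ((V.filter (fun x => l ∈ N x)).erase z).card : ℕ) : ℝ) := by
      rw [Nat.cast_sum]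
      refine sum_congr rfl fun l hl => ?_
      have hm : z ∈ V.filter (fun x => l ∈ N x) :=
        mem_filter.mpr ⟨hzV, mem_of_mem_erase hl⟩
      have hp : 0 < (V.filter (fun x => l ∈ N x)).card := card_pos.mpr ⟨z, hm⟩
      rw [card_erase_of_mem hm, Nat.cast_sub hp, Nat.cast_one]
    rw [e2]
    have e3 : ∑ l ∈ (N z).erase g, ((V.filter (fun x => l ∈ N x)).erase z).card ≤
        (U.filter (fun w => ¬ w ≤ g ∧ w ≤ h z ∧ z ≤ h w)).card := by
      rw [← card_biUnion]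
      · refine card_le_card fun x hx => ?_
        obtain ⟨l, hl, hx⟩ := mem_biUnion.mp hx
        obtain ⟨hlg, hlz⟩ := mem_erase.mp hl
        obtain ⟨hxz, hx⟩ := mem_erase.mp hx
        obtain ⟨hxV, hlx⟩ := mem_filter.mp hx
        obtain ⟨a1, a2, a3⟩ := hNg z hzU l hlz
        obtain ⟨-, b2, b3⟩ := hNg x (hV hxV) l hlx
        obtain ⟨-, c2, -⟩ := hNg z hzU g hgz
        refine mem_filter.mpr ⟨hV hxV, fun hxg => hlg ?_, b2.trans a3, a2.trans b3⟩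
        rw [← line_of (S.at_ z hzU) (S.at_ x (hV hxV)) hxz.symm a2 b2 a1,
          ← line_of (S.at_ z hzU) (S.at_ x (hV hxV)) hxz.symm c2 hxg hg]
      · intro l1 hl1 l2 hl2 h12
        rw [Function.onFun, disjoint_left]
        intro x hx1 hx2
        rw [mem_coe] at hl1 hl2
        obtain ⟨hxz, hx1⟩ := mem_erase.mp hx1
        obtain ⟨-, hx2⟩ := mem_erase.mp hx2
        obtain ⟨hxV, hlx1⟩ := mem_filter.mp hx1
        obtain ⟨-, hlx2⟩ := mem_filter.mp hx2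
        obtain ⟨a1, a2, -⟩ := hNg z hzU l1 (mem_of_mem_erase hl1)
        obtain ⟨b1, b2, -⟩ := hNg z hzU l2 (mem_of_mem_erase hl2)
        obtain ⟨-, c2, -⟩ := hNg x (hV hxV) l1 hlx1
        obtain ⟨-, d2, -⟩ := hNg x (hV hxV) l2 hlx2
        apply h12
        rw [← line_of (S.at_ z hzU) (S.at_ x (hV hxV)) hxz.symm a2 c2 a1,
          ← line_of (S.at_ z hzU) (S.at_ x (hV hxV)) hxz.symm b2 d2 b1]
    exact_mod_cast e3
  have h3 : ∑ z ∈ Z, ((∑ l ∈ N z, (n l - 1)) - (n g - 1)) ≤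
      ((∑ z ∈ Z, (U.filter (fun w => ¬ w ≤ g ∧ w ≤ h z ∧ z ≤ h w)).card : ℕ) : ℝ) := by
    rw [Nat.cast_sum]
    exact sum_le_sum h2
  have h5 : (0 : ℝ) ≤ (Z.card : ℝ) - 1 := by
    have : (1 : ℝ) ≤ Z.card := by exact_mod_cast hZ1
    linarith
  refine (mul_le_mul_of_nonneg_left h3 h5).trans ?_
  have h6 : (((Z.card - 1) * ∑ z ∈ Z,
      (U.filter (fun w => ¬ w ≤ g ∧ w ≤ h z ∧ z ≤ h w)).card : ℕ) : ℝ) ≤
      ((Z.card * T : ℕ) : ℝ) := by exact_mod_cast h1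
  rw [Nat.cast_mul, Nat.cast_mul, Nat.cast_sub hZ1, Nat.cast_one] at h6
  exact h6

/-- **Two lines for every user.** -/
theorem St.lines {U : Finset L} {h : L → L} (S : St U h) {N : L → Finset L} {w T : ℕ}
    (hw : 5 ≤ w) (hN : ∀ z ∈ U, (N z).card = w)
    (hNg : ∀ z ∈ U, ∀ g ∈ N z, rk g = 2 ∧ z ≤ g ∧ g ≤ h z)
    (hT : ∀ z ∈ U, ∀ g ∈ N z, (U.filter (fun w => ¬ w ≤ g ∧ w ≤ h z)).card ≤ T)
    (h4 : 4 * T ≤ (w - 1) * (w - 2) ^ 2) :
    ∃ f f' : L → L, (∀ z ∈ U, f z ∈ N z ∧ f' z ∈ N z) ∧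
      (∀ z ∈ U, ∀ y ∈ U, f z = f y → z = y) ∧ (∀ z ∈ U, ∀ y ∈ U, f' z = f' y → z = y) ∧
      ∀ z ∈ U, ∀ y ∈ U, f z ≠ f' y := by
  classical
  obtain ⟨F, hF1, hF2⟩ := (all_card_le_biUnion_card_iff_exists_injective
    (ι := {z // z ∈ U} × Bool) (fun x => N x.1.1)).mp (by
    intro s
    set V : Finset L := s.image (fun x => x.1.1) with hV
    have hVU : V ⊆ U := by
      intro z hz
      obtain ⟨x, -, rfl⟩ := mem_image.mp hz
      exact x.1.2
    have h1 := S.hall hw hN hNg hT h4 hVU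
    have h2 : V.biUnion N = s.biUnion (fun x => N x.1.1) := by
      rw [hV, image_biUnion]
    rw [← h2]
    refine le_trans ?_ h1
    have h3 : s.card ≤ (V ×ˢ (univ : Finset Bool)).card := by
      refine card_le_card_of_injOn (fun x => (x.1.1, x.2)) ?_ ?_
      · intro x hx
        rw [mem_coe, mem_product]
        exact ⟨mem_image.mpr ⟨x, hx, rfl⟩, mem_univ _⟩
      · rintro ⟨⟨x, hx⟩, b⟩ _ ⟨⟨y, hy⟩, b'⟩ _ e
        simp only [Prod.mk.injEq] at e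
        obtain ⟨rfl, rfl⟩ := e
        rfl
    rw [card_product] at h3
    have h5 : (univ : Finset Bool).card = 2 := rfl
    rw [h5] at h3
    omega)
  refine ⟨fun z => if hz : z ∈ U then F (⟨z, hz⟩, true) else z,
    fun z => if hz : z ∈ U then F (⟨z, hz⟩, false) else z, ?_, ?_, ?_, ?_⟩
  · intro z hz
    simp only [hz, dif_pos]
    exact ⟨hF2 (⟨z, hz⟩, true), hF2 (⟨z, hz⟩, false)⟩
  · intro z hz y hy e
    simp only [hz, hy, dif_pos] at e
    have := hF1 e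
    simp only [Prod.mk.injEq, Subtype.mk.injEq, and_true] at this
    exact this
  · intro z hz y hy e
    simp only [hz, hy, dif_pos] at e
    have := hF1 e
    simp only [Prod.mk.injEq, Subtype.mk.injEq, and_true] at this
    exact this
  · intro z hz y hy e
    simp only [hz, hy, dif_pos] at e
    have := hF1 e
    simp at this

end Pool.Agent.Helper49.SW
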