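import Pool.Agent.Helper49.SW.Assemble
import Pool.Agent.Helper73.BP.ConeK

/-!
# Rank four: fat cores

Every point is on at least `w + 1` lines of every plane through it, every plane has at most `T`
points and `4 T ≤ (w - 1) (w - 2) ^ 2`.
-/

set_option autoImplicit false
set_option linter.unusedSectionVars false

namespace Pool.Agent.Helper49.SW

open Finset
open Pool.Agent.Helper28.BPack Pool.Agent.Helper61.Motz Pool.Agent.Helper38.Thick
  Pool.Agent.Helper63.HM Pool.Agent.Helper38.SC Pool.Agent.Helper56.BP Pool.Agent.Helper73.BP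

variable {L : Type} [Lattice L] [BoundedOrder L] [Finite L] [IsUpperModularLattice L]
variable [DecidableEq L] [DecidableRel (α := L) (· ≤ ·)]

/-- A set in which every point is on at least three lines of every plane is a core. -/
theorem core_of_fat {A : Finset L} (hA : ∀ a ∈ A, IsAtom a)
    (hfat : ∀ z ∈ A, ∀ H, rk H = 3 → z ≤ H → 3 ≤ (linesAt A z H).card) : Core A := by
  intro p hp a ha b hb hab hpab
  have h2 : rk (a ⊔ b) = 2 := rk_line (hA a ha) (hA b hb) hab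
  have hH : rk (p ⊔ a ⊔ b) = 3 := by
    rw [sup_assoc, sup_comm, rk_sup_atom (hA p hp) hpab, h2]
  have hpa : a ≠ p := fun e => hpab (e ▸ le_sup_left)
  have h3 := hfat a ha (p ⊔ a ⊔ b) hH (le_sup_right.trans le_sup_left)
  obtain ⟨g, hg, hg1⟩ : ∃ g ∈ linesAt A a (p ⊔ a ⊔ b), g ∉ ({a ⊔ b, a ⊔ p} : Finset L) := by
    by_contra hcon
    push Not at hcon
    have h4 := card_le_card (show linesAt A a (p ⊔ a ⊔ b) ⊆ {a ⊔ b, a ⊔ p} from hcon)
    have h5 : ({a ⊔ b, a ⊔ p} : Finset L).card ≤ 2 := card_le_two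
    omega
  obtain ⟨y, hy, hyH, hya, rfl⟩ := mem_linesAt.mp hg
  rw [mem_insert, mem_singleton] at hg1
  push Not at hg1
  refine ⟨y, hy, hyH, fun e => hg1.2 (by rw [e]), fun k => hg1.1 ?_⟩
  exact line_of (hA a ha) (hA y hy) hya.symm le_sup_left k h2

/-- **Fat cores are packable.** -/
theorem crit4_fat {A : Finset L} (hA : ∀ a ∈ A, IsAtom a) (hrA : rk (A.sup id) = 4) {w T : ℕ}
    (hw : 5 ≤ w)
    (hfat : ∀ z ∈ A, ∀ H, rk H = 3 → z ≤ H → w + 1 ≤ (linesAt A z H).card)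
    (hT : ∀ H, rk H = 3 → ∀ g, rk g = 2 → g ≤ H →
      (A.filter (fun x => ¬ x ≤ g ∧ x ≤ H)).card ≤ T)
    (h4 : 4 * T ≤ (w - 1) * (w - 2) ^ 2) : Crit4 A := by
  classical
  have hcore : Core A := core_of_fat hA (fun z hz H hH hzH => by
    have := hfat z hz H hH hzH
    omega)
  obtain ⟨u, Q, hu, hU, hmax, hQ, huQ, hQA, -⟩ := exists_uQ hA hrA
  obtain ⟨o, ρ, F, hNF⟩ := exists_frK hA hrA hcore hu hU hQ huQ hQA
  obtain ⟨m, P, h1, h2, h3⟩ := cone_mP_K F (ker_of_frK F hNF) (U := A.filter (· ≤ u)) hU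
    (fun c hc => mem_filter.mp hc)
    (fun x hx hxQ c hc => hmax _ (rk_line (hA x hx) (hA c (mem_filter.mp hc).1)
      (fun e => F.off hxQ (e ▸ (mem_filter.mp hc).2))))
  have hB : Crit3 (A.filter (· ≤ Q)) := by
    refine Pool.Agent.Helper80.BP.crit3_all _ (fun a ha => hA a (mem_filter.mp ha).1) ?_
    obtain ⟨a, ha, haQ, hau⟩ := hQA
    have k1 : (A.filter (· ≤ Q)).sup id ≤ Q := Finset.sup_le fun x hx => (mem_filter.mp hx).2
    have k2 : u ≤ (A.filter (· ≤ Q)).sup id := by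
      obtain ⟨b1, hb1, b2, hb2, hb⟩ := one_lt_card.mp (show 1 < (A.filter (· ≤ u)).card by omega)
      rw [mem_filter] at hb1 hb2
      rw [← line_of (hA b1 hb1.1) (hA b2 hb2.1) hb hb1.2 hb2.2 hu]
      exact sup_le (le_sup (f := id) (mem_filter.mpr ⟨hb1.1, hb1.2.trans huQ⟩))
        (le_sup (f := id) (mem_filter.mpr ⟨hb2.1, hb2.2.trans huQ⟩))
    have k3 : a ≤ (A.filter (· ≤ Q)).sup id := le_sup (f := id) (mem_filter.mpr ⟨ha, haQ⟩)
    have k4 : rk (u ⊔ a) = 3 := by rw [rk_sup_atom (hA a ha) hau, hu]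
    have k5 := rk_mono k1
    have k6 := rk_mono (sup_le k2 k3)
    omega
  -- the allowed planes
  refine crit4_of_matching (P := fun H => rk H = 3 ∧ (o ≤ H → ∀ a ∈ A, ∀ b ∈ A, a ≤ Q → b ≤ Q →
    a ≤ H → b ≤ H → a = b)) (T := T) hA hQ hB F.oA F.oQ (fun H hH => hH.1) (fun H hH => hH.2) hw ?_
    ?_ h4 ?_
  · intro z hz hzQ hzo H hH hzH
    have k1 := hfat z hz H hH.1 hzH
    have k2 : ((linesAt A z H).filter (fun g => o ≤ g)).card ≤ 1 := by
      rw [card_le_one]
      intro g hg g' hg'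
      rw [mem_filter, mem_linesAt] at hg hg'
      obtain ⟨⟨y, hy, -, hyz, rfl⟩, hog⟩ := hg
      obtain ⟨⟨y', hy', -, hyz', rfl⟩, hog'⟩ := hg'
      exact line_two (hA z hz) (hA o F.oA) hzo le_sup_left hog
        (rk_line (hA z hz) (hA y hy) hyz.symm) le_sup_left hog'
        (rk_line (hA z hz) (hA y' hy') hyz'.symm)
    have k3 := card_filter_add_card_filter_not (s := linesAt A z H) (fun g => o ≤ g)
    omega
  · intro z hz hzQ hzo H hH hzH g hg
    obtain ⟨y, hy, hyH, hyz, rfl⟩ := mem_linesAt.mp hg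
    refine le_trans (card_le_card fun x hx => ?_)
      (hT H hH.1 (z ⊔ y) (rk_line (hA z hz) (hA y hy) hyz.symm) (sup_le hzH hyH))
    rw [mem_filter] at hx ⊢
    exact ⟨hx.1, hx.2.2⟩
  · refine ⟨fun x => if x ∈ RC A Q o u ρ then x ⊔ u else P x, ?_, ?_⟩
    · intro z hz hzQ hzo
      by_cases hzR : z ∈ RC A Q o u ρ
      · simp only [hzR, if_true]
        refine ⟨⟨?_, fun hoz => (F.rep_o hzR hoz).elim⟩, le_sup_left⟩
        rw [sup_comm, rk_sup_atom (hA z hz) (F.off hzQ), hu]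
      · simp only [hzR, if_false]
        obtain ⟨-, -, k3, -⟩ := h1 z (mem_NC.mpr ⟨hz, hzQ, hzo⟩) hzR
        refine ⟨⟨k3.1, fun hoz a ha b hb haQ hbQ haP hbP => ?_⟩, le_sup_left.trans k3.2.1⟩
        have l1 := k3.2.2.2 hoz a ha haQ haP
        have l2 := k3.2.2.2 hoz b hb hbQ hbP
        by_contra hab
        apply k3.2.2.1
        rw [← line_of (hA a ha) (hA b hb) hab l1 l2 hu]
        exact sup_le haP hbP
    · intro z hz hzQ hzo z' hz' hzQ' hzo' e
      have hN := mem_NC.mpr ⟨hz, hzQ, hzo⟩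
      have hN' := mem_NC.mpr ⟨hz', hzQ', hzo'⟩
      by_cases hzR : z ∈ RC A Q o u ρ
      · by_cases hzR' : z' ∈ RC A Q o u ρ
        · simp only [hzR, hzR', if_true] at e
          obtain ⟨-, -, -, k4⟩ := mem_RC.mp hzR
          obtain ⟨-, -, -, l4⟩ := mem_RC.mp hzR'
          rw [← k4, ← l4, sup_comm u z, sup_comm u z', e]
        · simp only [hzR, hzR', if_true, if_false] at e
          exact ((h1 z' hN' hzR').2.2.1.2.2.1 (e ▸ le_sup_right)).elim
      · by_cases hzR' : z' ∈ RC A Q o u ρ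
        · simp only [hzR, hzR', if_true, if_false] at e
          exact ((h1 z hN hzR).2.2.1.2.2.1 (e ▸ le_sup_right)).elim
        · simp only [hzR, hzR', if_false] at e
          exact h3 z hN hzR z' hN' hzR' e

end Pool.Agent.Helper49.SW
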